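import Pool.Agent.H26.UN.Cnd3
import Pool.Agent.H26.UN.Scl

/-!
The shape and the width of the self-avoiding polygons on the square lattice given their area, at all
scales: the Wulff shape of the inverse correlation length of the self-avoiding walk, uniformly in
the area.
-/

set_option autoImplicit false

namespace Pool.Agent.Results.MP_c23e5f_co.WulffLawAllScales

open Filter Topology MeasureTheory Set Metric
open scoped Pointwise

/-- a closed nearest-neighbour loop on `ℤ²` with `m` steps, rooted at the origin and oriented,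
that visits no vertex twice -/
def IsLoop (m : ℕ) (f : ZMod m → ℤ × ℤ) : Prop :=
  f 0 = 0 ∧ Function.Injective f ∧
    ∀ i : ZMod m, |(f (i + 1)).1 - (f i).1| + |(f (i + 1)).2 - (f i).2| = 1

/-- the edge from `f k` to `f (k+1)` is horizontal, joins the columns `x = a` and `x = a + 1`, and
has height larger than `b`: it lies above the unit cell `[a, a+1] × [b, b+1]` -/
def Above (m : ℕ) (f : ZMod m → ℤ × ℤ) (a b : ℤ) (k : ZMod m) : Prop :=
  (((f k).1 = a ∧ (f (k + 1)).1 = a + 1) ∨ ((f k).1 = a + 1 ∧ (f (k + 1)).1 = a)) ∧ b < (f k).2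

/-- the unit cell `[a, a+1] × [b, b+1]` is enclosed by the loop: the vertical ray from the cell
upwards crosses an odd number of edges -/
def Encl (m : ℕ) (f : ZMod m → ℤ × ℤ) (c : ℤ × ℤ) : Prop :=
  Odd (Nat.card {k : ZMod m // Above m f c.1 c.2 k})

/-- the area: the number of unit cells enclosed by the loop -/
noncomputable def area (m : ℕ) (f : ZMod m → ℤ × ℤ) : ℕ := Nat.card {c : ℤ × ℤ // Encl m f c}

/-- the width: the largest difference of the first coordinates of two vertices -/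
noncomputable def width (n : ℕ) (f : ZMod (2 * n) → ℤ × ℤ) : ℝ :=
  ⨆ p : ZMod (2 * n) × ZMod (2 * n), (((f p.1).1 : ℝ) - ((f p.2).1 : ℝ))

/-- the convex hull of the polygon, scaled by `1/s` -/
def hull (n : ℕ) (s : ℝ) (f : ZMod (2 * n) → ℤ × ℤ) : Set (ℝ × ℝ) :=
  convexHull ℝ (range fun k : ZMod (2 * n) => (((f k).1 : ℝ) / s, ((f k).2 : ℝ) / s))

/-- the region enclosed by the polygon (the union of the enclosed unit cells), scaled by `1/s` -/
def inside (n : ℕ) (s : ℝ) (f : ZMod (2 * n) → ℤ × ℤ) : Set (ℝ × ℝ) :=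
  ⋃ c ∈ {c : ℤ × ℤ | Encl (2 * n) f c},
    Ico ((c.1 : ℝ) / s) (((c.1 : ℝ) + 1) / s) ×ˢ Ico ((c.2 : ℝ) / s) (((c.2 : ℝ) + 1) / s)

/-- the polygon, scaled by `1/s`, has the shape `T` up to `δ`: after a translation of `T` the
Hausdorff distance between the convex hull of the polygon and `T` is smaller than `δ`, and so is
the area of the symmetric difference of the enclosed region and `T` -/
def Close (n : ℕ) (s : ℝ) (T : Set (ℝ × ℝ)) (δ : ℝ) (f : ZMod (2 * n) → ℤ × ℤ) : Prop :=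
  ∃ w : ℝ × ℝ, hausdorffDist (hull n s f) ((fun x => x + w) '' T) < δ ∧
    volume.real (symmDiff (inside n s f) ((fun x => x + w) '' T)) < δ

/-- the polygons of perimeter `2 n` with area in `S` -/
def Pol (n : ℕ) (S : Set ℝ) : Set (ZMod (2 * n) → ℤ × ℤ) :=
  {f | IsLoop (2 * n) f ∧ (area (2 * n) f : ℝ) ∈ S}

/-- `ω` is an `n`-step self-avoiding walk on `ℤ²` started at the origin. -/
def IsSAW (n : ℕ) (ω : Fin (n + 1) → ℤ × ℤ) : Prop :=
  ω 0 = (0, 0) ∧
  (∀ i : Fin n, |(ω i.succ).1 - (ω i.castSucc).1| + |(ω i.succ).2 - (ω i.castSucc).2| = 1) ∧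
  Function.Injective ω

/-- `c_n`: the number of `n`-step self-avoiding walks from the origin -/
noncomputable def c (n : ℕ) : ℕ := Nat.card {ω : Fin (n + 1) → ℤ × ℤ // IsSAW n ω}

/-- `c_n(x)`: the number of `n`-step self-avoiding walks from the origin to `x` -/
noncomputable def cx (n : ℕ) (x : ℤ × ℤ) : ℕ :=
  Nat.card {ω : Fin (n + 1) → ℤ × ℤ // IsSAW n ω ∧ ω (Fin.last n) = x}

/-- the two-point function `G_z(x) = ∑_n c_n(x) z^n` -/
noncomputable def G (z : ℝ) (x : ℤ × ℤ) : ℝ := ∑' n : ℕ, (cx n x : ℝ) * z ^ n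

/-- the Wulff shape of a function `m` of the directions `x ∈ ℤ²` -/
def Wulff (m : ℤ × ℤ → ℝ) : Set (ℝ × ℝ) :=
  {h | ∀ x : ℤ × ℤ, x ≠ 0 → h.1 * x.1 + h.2 * x.2 ≤ m x}

/-- `z` maximises `2 √(u |K_z|) + 2 log (μ z)`, `K_z` the Wulff shape of `m z` -/
def IsMax (μ : ℝ) (m : ℝ → ℤ × ℤ → ℝ) (u z : ℝ) : Prop :=
  0 < z ∧ z < 1 / μ ∧ ∀ z' : ℝ, 0 < z' → z' < 1 / μ →
    2 * √(u * volume.real (Wulff (m z'))) + 2 * Real.log (μ * z') ≤
      2 * √(u * volume.real (Wulff (m z))) + 2 * Real.log (μ * z)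

theorem c_eq (n : ℕ) : c n = TH795.EP.c n := TH795.EP2.card_walks n

theorem cx_eq (n : ℕ) (x : ℤ × ℤ) : cx n x = TH795.EP.a n x.1 x.2 := TH795.EP2.card_walks_to n x

theorem G_eq (z : ℝ) (x y : ℤ) : G z (x, y) = Y981.L2.Gz z x y := by
  unfold G Y981.L2.Gz
  apply tsum_congr
  intro n
  rw [cx_eq]

/-- **Theorem.** Let `μ = lim c_n^(1/n)` and, for `0 < z < 1/μ` and `x ∈ ℤ²`, `x ≠ 0`,
`m_z(x) = lim_k - (1/k) log G_z(k x)` the inverse correlation length of the self-avoiding walk in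
the direction `x`.  Its Wulff shape `K_z = {h : h · x ≤ m_z(x) for all x}` is a convex compact
neighbourhood of `0`; let `|K_z|` be its area.
(1) For `0 < u < 1/4` there is `z` which maximises `2 √(u |K_z|) + 2 log (μ z)`; the maximum
`R(u)` is positive, and `W_u = K_z / √|K_z|`, the homothetic copy of area one, is the same for all
such `z`.  These `z` tend to `1/μ` as `u → 0`.  There is `a > 0` such that, for all large `n`,
`n R(u) ≥ √n` for all `u ≥ n^(-a / log log n)`.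
(2) Wulff's law at all scales: for `u₁ < 1/4`, `κ > 0` and `δ > 0` there are `c > 0`, `C` and `n₀`
such that the following holds for all `n ≥ n₀`, all `0 < u ≤ u₁` with `n R(u) ≥ C log² n` and all
`S` with `(u n², (1 + κ) u n²) ⊆ S ⊆ [u n², ∞)`.  All but a proportion `exp(- c n R(u))` of the
self-avoiding polygons of perimeter `2 n` with area in `S` have, scaled by `1/(√u n)`, the
shape `W_u` up to `δ`.  The constants do not depend on `u`, which may tend to `0` with `n`: by (1)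
the condition on `n` and `u` holds for all areas down to `n^(2 - a / log log n)`.
(3) The mean width of these polygons is `2 √(u / |K_z|) m_z(1, 0) n` up to an error `δ √u n`, for
every maximiser `z`. -/
theorem result : ∃ (μ : ℝ) (m : ℝ → ℤ × ℤ → ℝ) (W : ℝ → Set (ℝ × ℝ)) (R : ℝ → ℝ),
    Tendsto (fun n : ℕ => (c n : ℝ) ^ (1 / (n : ℝ))) atTop (𝓝 μ) ∧
    (∀ z : ℝ, 0 < z → z < 1 / μ → (∀ x : ℤ × ℤ, x ≠ 0 → 0 < m z x ∧
      Tendsto (fun k : ℕ => - Real.log (G z (k * x.1, k * x.2)) / k) atTop (𝓝 (m z x))) ∧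
      Convex ℝ (Wulff (m z)) ∧ IsCompact (Wulff (m z)) ∧ (0 : ℝ × ℝ) ∈ interior (Wulff (m z))) ∧
    (∀ u : ℝ, 0 < u → u < 1 / 4 → 0 < R u ∧ (∃ z : ℝ, IsMax μ m u z) ∧
      ∀ z : ℝ, IsMax μ m u z → W u = (1 / √(volume.real (Wulff (m z)))) • Wulff (m z) ∧
        R u = 2 * √(u * volume.real (Wulff (m z))) + 2 * Real.log (μ * z)) ∧
    (∀ z₀ : ℝ, z₀ < 1 / μ → ∃ u₀ : ℝ, 0 < u₀ ∧ ∀ u : ℝ, 0 < u → u < u₀ →
      ∀ z : ℝ, IsMax μ m u z → z₀ < z) ∧
    (∃ a : ℝ, 0 < a ∧ ∀ᶠ n : ℕ in atTop, ∀ u : ℝ, 0 < u → u < 1 / 4 →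
      (n : ℝ) ^ (-(a / Real.log (Real.log n))) ≤ u → √(n : ℝ) ≤ n * R u) ∧
    ∀ u₁ κ δ : ℝ, u₁ < 1 / 4 → 0 < κ → 0 < δ → ∃ (c C : ℝ) (n₀ : ℕ), 0 < c ∧ 0 < C ∧
      ∀ n : ℕ, n₀ ≤ n → ∀ u : ℝ, 0 < u → u ≤ u₁ → C * Real.log n ^ 2 ≤ n * R u →
      ∀ S : Set ℝ, Ioo (u * (n : ℝ) ^ 2) ((1 + κ) * (u * (n : ℝ) ^ 2)) ⊆ S →
        S ⊆ Ici (u * (n : ℝ) ^ 2) →
        0 < (Pol n S).ncard ∧
        ({f ∈ Pol n S | ¬Close n (√u * n) (W u) δ f}.ncard : ℝ) ≤
          Real.exp (-(c * (n * R u))) * (Pol n S).ncard ∧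
        ∀ z : ℝ, IsMax μ m u z →
          |(∑ᶠ f ∈ Pol n S, width n f) / ((Pol n S).ncard : ℝ) -
            2 * √(u / volume.real (Wulff (m z))) * m z (1, 0) * n| ≤ δ * (√u * n) := by
  have hmu := H981.mu_pos
  obtain ⟨m, hm⟩ : ∃ m : ℝ → ℤ × ℤ → ℝ,
      m = fun z x => Y981.L2X.M (-Real.log (z * H981.mu)) ((x.1 : ℝ), (x.2 : ℝ)) := ⟨_, rfl⟩
  have hlogE : ∀ z : ℝ, 0 < z → z < 1 / H981.mu → 0 < -Real.log (z * H981.mu) := by
    intro z hz hz1
    have h1 : z * H981.mu < 1 := by rwa [lt_div_iff₀ hmu] at hz1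
    have h2 := Real.log_neg (mul_pos hz hmu) h1
    linarith
  have hW : ∀ z : ℝ, 0 < z → z < 1 / H981.mu →
      Wulff (m z) = H26.WF.Kc (-Real.log (z * H981.mu)) := by
    intro z hz hz1
    rw [hm]
    exact H26.WF.shape (hlogE z hz hz1)
  have hinv : ∀ E : ℝ, 0 < E → ∃ z : ℝ, 0 < z ∧ z < 1 / H981.mu ∧
      -Real.log (z * H981.mu) = E := by
    intro E hE
    refine ⟨Real.exp (-E) / H981.mu, by positivity, ?_, ?_⟩
    · rw [div_lt_div_iff_of_pos_right hmu, ← Real.exp_zero]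
      exact Real.exp_lt_exp.2 (by linarith)
    · rw [div_mul_cancel₀ _ hmu.ne', Real.log_exp, neg_neg]
  -- maximisers
  have hval : ∀ u : ℝ, 0 ≤ u → ∀ z : ℝ, 0 < z → z < 1 / H981.mu →
      2 * √(u * volume.real (Wulff (m z))) + 2 * Real.log (H981.mu * z) =
        2 * (√u * H26.WF.g (-Real.log (z * H981.mu))) - 2 * -Real.log (z * H981.mu) := by
    intro u hu z hz hz1
    rw [hW z hz hz1, Real.sqrt_mul hu, mul_comm H981.mu z]
    unfold H26.WF.g H26.WF.V
    ring
  have hv : ∀ u : ℝ, 0 ≤ u → ∀ E, 2 * √(u * H26.WF.V E) - 2 * E = 2 * (√u * H26.WF.g E) - 2 * E := by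
    intro u hu E
    rw [Real.sqrt_mul hu]
    rfl
  have hopt : ∀ u : ℝ, 0 < u → u < 1 / 4 → ∀ z : ℝ, 0 < z → z < 1 / H981.mu →
      (IsMax H981.mu m u z ↔ H26.WS.Opt u (-Real.log (z * H981.mu))) := by
    intro u hu hu4 z hz hz1
    have hs := H26.WF.sqrt_mem ⟨hu.le, hu4.le⟩
    constructor
    · rintro ⟨-, -, h⟩
      refine ⟨hlogE z hz hz1, ?_⟩
      rw [H26.WF.RR_eq hu.le, hv u hu.le]
      apply le_antisymm
      · apply H26.WF.rho_le
        intro E hE
        obtain ⟨z', hz', hz1', rfl⟩ := hinv E hE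
        have h1 := h z' hz' hz1'
        rwa [hval u hu.le z hz hz1, hval u hu.le z' hz' hz1'] at h1
      · exact H26.WF.le_rho hs.1 hs.2 (hlogE z hz hz1)
    · rintro ⟨-, h⟩
      refine ⟨hz, hz1, ?_⟩
      intro z' hz' hz1'
      rw [hval u hu.le z hz hz1, hval u hu.le z' hz' hz1']
      rw [H26.WF.RR_eq hu.le, hv u hu.le] at h
      rw [← h]
      exact H26.WF.le_rho hs.1 hs.2 (hlogE z' hz' hz1')
  -- the shape of area one
  have hUE : ∀ u E : ℝ, 0 < u → 0 < E → H26.UN.UE E = (1 / √u) • H26.WS.WT u E := by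
    intro u E hu hE
    have h1 : 0 < √u := Real.sqrt_pos.2 hu
    unfold H26.UN.UE H26.WS.WT
    rw [Real.sqrt_div hu.le, smul_smul]
    congr 1
    have h2 : √(H26.WF.V E) = H26.WF.g E := rfl
    rw [h2]
    field_simp
  classical
  refine ⟨H981.mu, m, fun u => if h : ∃ E, H26.WS.Opt u E then H26.UN.UE h.choose else ∅,
    H26.WF.RR, ?_, ?_, ?_, ?_, H26.UN.scale_ok, ?_⟩
  · refine H981.tendsto_root.congr ?_
    intro n
    rw [c_eq, TH795.EP.c_eq]
  · intro z hz hz1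
    have he := hlogE z hz hz1
    refine ⟨fun x hx => ?_, ?_⟩
    · rw [hm]
      refine ⟨Y981.L2X.M_pos he hx, ?_⟩
      refine (Y981.L2X.G_dir hz hz1 hx).congr ?_
      intro k
      rw [G_eq]
    · rw [hW z hz hz1]
      exact H26.WF.Kc_props he
  · intro u hu hu4
    have hs := H26.WF.sqrt_mem ⟨hu.le, hu4.le⟩
    have hex := H26.WS.exists_opt hu hu4
    refine ⟨?_, ?_, ?_⟩
    · rw [H26.WF.RR_eq hu.le]
      exact H26.WF.rho_pos (Real.sqrt_pos.2 hu) hs.2
    · obtain ⟨E, hE⟩ := hex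
      obtain ⟨z, hz, hz1, hzE⟩ := hinv E hE.1
      refine ⟨z, (hopt u hu hu4 z hz hz1).2 ?_⟩
      rw [hzE]
      exact hE
    · intro z hz
      have h1 := (hopt u hu hu4 z hz.1 hz.2.1).1 hz
      constructor
      · simp only
        rw [dif_pos hex, hUE u _ hu hex.choose_spec.1,
          H26.WS.opt_unique hu hu4 hex.choose_spec h1, ← hUE u _ hu h1.1, hW z hz.1 hz.2.1]
        rfl
      · rw [hval u hu.le z hz.1 hz.2.1, ← hv u hu.le]
        exact h1.2
  · intro z₀ hz₀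
    rcases le_or_gt z₀ 0 with h0 | h0
    · exact ⟨1, one_pos, fun u _ _ z hz => lt_of_le_of_lt h0 hz.1⟩
    · have hE0 := hlogE z₀ h0 hz₀
      obtain ⟨E0, hE0d⟩ : ∃ E0, E0 = -Real.log (z₀ * H981.mu) := ⟨_, rfl⟩
      rw [← hE0d] at hE0
      have hlm := H26.WF.log_mu_nonneg
      obtain ⟨r₀, hr₀⟩ : ∃ r₀, r₀ = min (1 / 4) (E0 / (4 * (Real.log H981.mu + 1))) := ⟨_, rfl⟩
      have hr0 : 0 < r₀ := by rw [hr₀]; exact lt_min (by norm_num) (by positivity)
      have hr1 : r₀ ≤ 1 / 4 := by rw [hr₀]; exact min_le_left _ _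
      have hr2 : r₀ ≤ E0 / (4 * (Real.log H981.mu + 1)) := by rw [hr₀]; exact min_le_right _ _
      refine ⟨r₀ ^ 2, by positivity, ?_⟩
      intro u hu hu0 z hz
      have hsu : √u < r₀ := by
        rw [← Real.sqrt_sq hr0.le]
        exact Real.sqrt_lt_sqrt hu.le hu0
      have hu4 : u < 1 / 4 := by
        have h1 := pow_le_pow_left₀ hr0.le hr1 2
        norm_num at h1
        linarith
      have hsu0 : 0 < √u := Real.sqrt_pos.2 hu
      have h1 := (hopt u hu hu4 z hz.1 hz.2.1).1 hz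
      have h2 := h1.2
      rw [H26.WF.RR_eq hu.le, hv u hu.le] at h2
      have h3 := H26.UN.max_small hsu0 (by linarith) h1.1 h2
      have h4 : 4 * √u * Real.log H981.mu < E0 := by
        rw [le_div_iff₀ (by positivity)] at hr2
        have h5 : √u * (4 * (Real.log H981.mu + 1)) < r₀ * (4 * (Real.log H981.mu + 1)) :=
          mul_lt_mul_of_pos_right hsu (by positivity)
        linarith
      have h5 : Real.log (z₀ * H981.mu) < Real.log (z * H981.mu) := by linarith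
      rw [Real.log_lt_log_iff (mul_pos h0 hmu) (mul_pos hz.1 hmu)] at h5
      exact lt_of_mul_lt_mul_right h5 hmu.le
  · intro u₁ κ δ hu₁ hκ hδ
    have hr₁ : √u₁ < 1 / 2 := by
      rw [Real.sqrt_lt' (by norm_num)]
      norm_num
      linarith
    obtain ⟨δ1, hδ1, hreg⟩ := H26.UN.region_u hδ
    obtain ⟨c1, C1, n₁, hc1, hC1, hn₁, hshape⟩ :=
      H26.UN.shape_u (show 0 < min δ δ1 from lt_min hδ hδ1) hκ hr₁
    obtain ⟨C2, n₂, hC2, hn₂, hmean⟩ := H26.UN.mean_u hδ hκ hr₁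
    refine ⟨c1, C1 + C2, n₁ + n₂, hc1, by linarith, ?_⟩
    intro n hn u hu hu1 hbig S hS1 hS2
    have hu4 : u < 1 / 4 := by linarith
    have hn1 : 1 ≤ n := by omega
    have hn0 : (0 : ℝ) < n := by exact_mod_cast hn1
    have : NeZero (2 * n) := ⟨by omega⟩
    have hr0 : 0 < √u := Real.sqrt_pos.2 hu
    have hrr : √u ≤ √u₁ := Real.sqrt_le_sqrt hu1
    have hsq : (√u * n) ^ 2 = u * (n : ℝ) ^ 2 := by rw [mul_pow, Real.sq_sqrt hu.le]
    have hs : 0 < √u * n := by positivity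
    have hL0 : 0 ≤ Real.log (n : ℝ) ^ 2 := by positivity
    have ha := mul_nonneg hC1.le hL0
    have hb := mul_nonneg hC2.le hL0
    have hex := H26.WS.exists_opt hu hu4
    obtain ⟨E, hE⟩ : ∃ E, E = hex.choose := ⟨_, rfl⟩
    have hEo : H26.WS.Opt u E := by rw [hE]; exact hex.choose_spec
    have hrho : H26.WF.rho √u = 2 * (√u * H26.WF.g E) - 2 * E := by
      rw [← H26.WF.RR_eq hu.le, hEo.2]
      exact hv u hu.le E
    rw [H26.WF.RR_eq hu.le] at hbig ⊢
    rw [← hsq] at hS1 hS2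
    obtain ⟨q1, q2, q3⟩ := hshape n (by omega) √u hr0 hrr (by linarith) E hEo.1 hrho S hS1 hS2
    have hPol : H26.WF.pr n S * Y981.L2.ln n = (Pol n S).ncard := by
      have h1 : H26.WF.pr n S = ((Pol n S).ncard : ℝ) / Y981.L2.ln n := rfl
      rw [h1]
      field_simp
    have hPpos : (0 : ℝ) < (Pol n S).ncard := by
      rw [← hPol]
      exact mul_pos q1 q2
    refine ⟨by exact_mod_cast hPpos, ?_, ?_⟩
    · rw [hPol] at q3
      refine le_trans ?_ q3
      have hfin : {f : ZMod (2 * n) → ℤ × ℤ | H981.IsLoop (2 * n) f ∧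
          (Y981.L2.area (2 * n) f : ℝ) ∈ S ∧ H26.UN.FarU n (√u * n) E (min δ δ1) f}.Finite :=
        (Y981.L2.loops_finite hn1).subset fun f hf => hf.1
      have h1 := Set.ncard_le_ncard (s := {f ∈ Pol n S | ¬Close n (√u * n)
        (if h : ∃ E, H26.WS.Opt u E then H26.UN.UE h.choose else ∅) δ f}) (fun f hf => by
          obtain ⟨⟨hf1, hf2⟩, hf3⟩ := hf
          have hf1' : H981.IsLoop (2 * n) f := hf1
          have hf2' : (Y981.L2.area (2 * n) f : ℝ) ∈ S := hf2
          refine ⟨hf1', hf2', ?_⟩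
          intro w
          by_contra hcon
          push Not at hcon
          apply hf3
          rw [dif_pos hex, ← hE]
          refine ⟨w, lt_of_lt_of_le hcon (min_le_left _ _), ?_⟩
          apply hreg (H26.UN.UE E) (H26.UN.UE_cl hEo.1) (H26.UN.UE_vol hEo.1) w
            (H26.WS.region (√u * n) f) (convexHull ℝ (H26.WS.pts (√u * n) f))
            (H26.WS.region_meas _ _) (H26.WS.region_sub hs hf1'.2.2) (H26.WS.hull_compact _ _)
            (lt_of_lt_of_le hcon (min_le_right _ _))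
          have h2 : volume.real (H26.WS.region (√u * n) f) =
              (Y981.L2.area (2 * n) f : ℝ) / (√u * n) ^ 2 := by
            unfold Measure.real
            rw [H26.WS.region_vol hs hf1'.2.2, ENNReal.toReal_ofReal (by positivity)]
          rw [h2, one_le_div (by positivity)]
          exact hS2 hf2') hfin
      exact_mod_cast h1
    · intro z hz
      have h1 := (hopt u hu hu4 z hz.1 hz.2.1).1 hz
      have hrho' : H26.WF.rho √u = 2 * (√u * H26.WF.g (-Real.log (z * H981.mu))) -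
          2 * -Real.log (z * H981.mu) := by
        rw [← H26.WF.RR_eq hu.le, h1.2]
        exact hv u hu.le _
      have h2 := hmean n (by omega) √u hr0 hrr (by linarith) _ h1.1 hrho' S hS1 hS2
      have e : m z (1, 0) = Y981.L2X.M (-Real.log (z * H981.mu)) (1, 0) := by
        rw [hm]
        simp
      rw [hW z hz.1 hz.2.1, e]
      have e2 : 2 * √(u / volume.real (H26.WF.Kc (-Real.log (z * H981.mu)))) *
          Y981.L2X.M (-Real.log (z * H981.mu)) (1, 0) * n =
          2 * (1 / H26.WF.g (-Real.log (z * H981.mu))) *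
            Y981.L2X.M (-Real.log (z * H981.mu)) (1, 0) * (√u * n) := by
        rw [Real.sqrt_div hu.le]
        have h3 : √(volume.real (H26.WF.Kc (-Real.log (z * H981.mu)))) =
          H26.WF.g (-Real.log (z * H981.mu)) := rfl
        rw [h3]
        ring
      rw [e2]
      exact h2

end Pool.Agent.Results.MP_c23e5f_co.WulffLawAllScales
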